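import Pool.Agent.V11322.LF.FixLin

/-!
# Nonvanishing for pairs with a powerful linear system, whose fibres correspond to a fixed pair

Let `X` be a normal projective variety of dimension `d + e`, `Δ ≥ 0` an `ℝ`-divisor on `X`, for
instance the boundary of an l.c. pair, and `|V|` a linear system on `X` of dimension `n` (it may have
fixed components) whose rational map `X ⇢ ℙⁿ` has an image `Y` of dimension `d`, `1 ≤ d ≤ n`; the
image may be any nondegenerate variety, for instance rational. Suppose:

* (the base) `D i` (`i < q`) are finitely many members of `|V|` which span `V`, in arbitrary position,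
  `c` is the number of the components of this configuration (`V` is the direct sum of `c`, but not of
  `c + 1`, nonzero subspaces such that each `D i` belongs to one of them, the component of `D i`), and
  for every prime divisor `P` of `X` at which some `D i` has more than the generic multiplicity, the
  multiplicities of `P` in two members `D i`, `D i'` of one component of the configuration differ by
  at least `s (1 - δ P)`, where `δ P` is the coefficient of `Δ`, and
  `s ≥ (n + 3 - c) (n - d + 1) (n - d + 2) / 2` (if `c = 1` and there are at least `n + 3` different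
  members then `n + 1` can be taken instead of `n + 2`);
* (the fibres) there is a fixed variety `F` of dimension `e`, a variety `X'` with a generically finite
  map `X' ⇢ X` and a dominant rational map `X' ⇢ F`, such that `X' ⇢ Y × F` is generically finite;
  both generically finite maps may have any degree and any ramification, and the fibres of `X' ⇢ Y`
  may move in any way (for instance they may be coverings of `F` with moving branch divisors). There
  are given coefficients `δF v ≤ 1` for all prime divisors `v` over `F` (`δF = 0` for a smooth
  projective `F`; `1` minus the log discrepancy for an l.c. pair), and for every prime divisor `P` of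
  `X` which dominates `Y` and every place `Q` of `X'` over `P`, with the ramification index `ε`:
  `ε (1 - δ P) ≤ e' (1 - δF v)` if `Q` is over a prime divisor `v` of `F`, with the ramification index
  `e'`, and `ε (1 - δ P) ≤ 1` if `Q` dominates `F`. If `X' = X` and `δF = 0` this condition is
  always satisfied.

Then `κ(X, K_X + Δ) ≥ κ(F, K_F + δF)`; in particular, if `κ(F, K_F + δF) ≥ 0`, then some positive
multiple of `K_X + Δ` has a nonzero section. If the inequality for `s` is strict then
`κ(X, K_X + Δ) ≥ d + 1 - c + κ(F, K_F + δF)`. So for `c = 1` and `F` of log general type `K_X + Δ` is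
big. Nefness is not needed.

`MP_bc213e_ag.LinearSystemNonvanishing` is the case `e = 0`; in `MP_a58813_ag.DoubleCovers` the fibres
are products of double covers of the line and in `MP_bc213e_ag.LinearSystemFibres` they correspond to
arrangements of hyperplanes. For `c > 1` the base need not be of (orbifold) general type: the
complement of the members may be a product of algebraic tori.

The function-field language of the starting repository is used. `K` is the function field of `X`;
the prime divisors of `X` are places `P` of `K` (`Place`, `Divisorial`), `P.ord` is the order along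
`P`, and `X` is given by the set of its prime divisors. The linear system is given by the finite
dimensional space `V` of rational functions: if `a` is the minimum of the orders at `P` of the
members of `V` then the multiplicity of `P` in the moving part of the divisor of the system which is
given by `f ∈ V` is `P.ord f - a`. A section of `N (K_X + Δ)` is an `N`-canonical form `ω`
(`IsPluri`), a function of `d + e` rational vector fields, whose value on vector fields that are
regular at `P` has order at least `- N δ P`, for all prime divisors `P` of `X`.

Proof: the sections are products of powers of generalised Wronskians of `V`, divided by products of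
members (`lin_fib` of helper585), and of the norms to `X` of the pull backs to `X'` of the forms on `F`
(`fix_low`): at a prime divisor which does not dominate `Y` the regular vector fields along the
fibres are logarithmic, also on `X'`, and the pull backs of the forms on `F` are regular on
logarithmic vector fields because `δF ≤ 1`.
-/

set_option autoImplicit false

open FF Pool.Agent.W602.GT

namespace Pool.Agent.Results.MP_bc213e_ag.FixedVarietyFibres

/-- The function field of the image of the rational map which is given by the linear system `V`: the
field generated by the quotients of the members. -/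
noncomputable def ImageField {K : Type} [Field K] [Algebra ℂ K] (V : Submodule ℂ K) :
    IntermediateField ℂ K :=
  IntermediateField.adjoin ℂ {y : K | ∃ f ∈ V, ∃ g ∈ V, y = f / g}

/-- `γ` is a decomposition of the configuration of the members `φ i` of `V` into `c` components: `V`
has a basis of `n + 1` elements `x a`, divided into `c` nonempty groups (`x a` is in the group `g a`),
such that `φ i` is in the subspace spanned by the elements of the group `γ i`. -/
def Decomposition (n : ℕ) {q c : ℕ} {K : Type} [Field K] [Algebra ℂ K] (V : Submodule ℂ K)
    (φ : Fin q → K) (γ : Fin q → Fin c) : Prop :=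
  ∃ (x : Fin (n + 1) → K) (g : Fin (n + 1) → Fin c), LinearIndependent ℂ x ∧
    Submodule.span ℂ (Set.range x) = V ∧ Function.Surjective g ∧
    ∀ i, φ i ∈ Submodule.span ℂ (x '' {a | g a = γ i})

/-- There are `r` members `φ i` of which no two are proportional. -/
def Different (r : ℕ) {q : ℕ} {K : Type} [Field K] [Algebra ℂ K] (φ : Fin q → K) : Prop :=
  ∃ τ : Fin r → Fin q, ∀ i j, i ≠ j → ∀ t : ℂ, φ (τ i) ≠ t • φ (τ j)

/-- The condition on the multiplicities, on a variety `X` of dimension `w`: if at the prime divisor
`P` of `X` the order of some `φ i` is not the minimum `a` of the orders of the members of `V`, then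
for some members `D i`, `D i'` of the same component of the configuration the difference of the
multiplicities of `P` is at least `s (1 - δ P)`. -/
def Multiplicities (w : ℕ) {q c : ℕ} {K : Type} [Field K] [Algebra ℂ K] (V : Submodule ℂ K)
    (φ : Fin q → K) (γ : Fin q → Fin c) (X : Set (Place ℂ K)) (δ : Place ℂ K → ℝ) (s : ℝ) : Prop :=
  ∀ P ∈ X, Divisorial w P → ∀ a : ℤ, (∀ f ∈ V, f = 0 ∨ a ≤ P.ord f) →
    (∃ f ∈ V, f ≠ 0 ∧ P.ord f = a) → (∃ i, P.ord (φ i) ≠ a) →
    ∃ i i', γ i' = γ i ∧ s * (1 - δ P) ≤ ((P.ord (φ i) - P.ord (φ i') : ℤ) : ℝ)

/-- `ω` is a section of `N (K_X + Δ)` on a variety `X` of dimension `w`, where `X` is given by the set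
of its prime divisors, and `Δ` has the coefficient `δ P` at `P`: an `N`-canonical form whose values
on vector fields which are regular at `P` have order at least `- N δ P`, for all prime divisors `P`
of `X`. -/
def IsSection {K : Type} [Field K] [Algebra ℂ K] (w : ℕ) (X : Set (Place ℂ K))
    (δ : Place ℂ K → ℝ) (N : ℕ) (ω : (Fin w → Derivation ℂ K K) → K) : Prop :=
  IsPluri N ω ∧ ∀ P ∈ X, Divisorial w P → ∀ D : Fin w → Derivation ℂ K K,
    (∀ i, DerReg P (D i)) → ω D = 0 ∨ -(N * δ P) ≤ (P.ord (ω D) : ℝ)

/-- The Kodaira dimension of `K_X + Δ` is at least `κ`: some positive multiple has sections with `κ`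
algebraically independent ratios (a nonzero section, if `κ = 0`). -/
def KodairaGe {K : Type} [Field K] [Algebra ℂ K] (w : ℕ) (X : Set (Place ℂ K))
    (δ : Place ℂ K → ℝ) (κ : ℕ) : Prop :=
  ∃ N : ℕ, 0 < N ∧ ∃ ω : Fin (κ + 1) → (Fin w → Derivation ℂ K K) → K,
    (∀ j, IsSection w X δ N (ω j)) ∧
    ∃ D, ω 0 D ≠ 0 ∧ AlgebraicIndependent ℂ (fun i : Fin κ => ω i.succ D / ω 0 D)

/-- The place `Q` of the field `K'` is over the place `P` of the subfield `K`, with the ramification
index `ε`. -/
def LiesOver {K K' : Type} [Field K] [Algebra ℂ K] [Field K'] [Algebra ℂ K'] [Algebra K K']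
    (Q : Place ℂ K') (P : Place ℂ K) (ε : ℕ) : Prop :=
  0 < ε ∧ ∀ f : K, Q.ord (algebraMap K K' f) = ε * P.ord f

/-- The subfield `L` of `K` is the function field of the base. There is a finite extension `K'` of `K`
which contains the function field `F` of a variety of dimension `e`, such that `K'` is algebraic over
the compositum of `L` and `F`, and `L` and `F` are independent: a transcendence basis `t` of `F` is a
transcendence basis of `K'` over (the image of) `L`. The condition on the ramification: for the prime
divisors `P` of `X`, `X` of dimension `w`, which are trivial on `L`, and all the places `Q` of `K'` over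
`P`, with the ramification index `ε`: `ε (1 - δ P)` is at most `e' (1 - δF v)` if `Q` is over the
place `v` of `F` with the ramification index `e'`, and at most `1` if `Q` is trivial on `F`. -/
def Corresponds (w e : ℕ) {K : Type} [Field K] [Algebra ℂ K] (X : Set (Place ℂ K))
    (δ : Place ℂ K → ℝ) (L : IntermediateField ℂ K) (F : Type) [Field F] [Algebra ℂ F]
    (δF : Place ℂ F → ℝ) : Prop :=
  ∃ (K' : Type) (_ : Field K') (_ : Algebra ℂ K') (_ : Algebra K K') (_ : IsScalarTower ℂ K K')
    (_ : FiniteDimensional K K') (_ : Algebra F K') (_ : IsScalarTower ℂ F K') (t : Fin e → F),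
    IsTranscendenceBasis ℂ t ∧
    IsTranscendenceBasis (L.map (IsScalarTower.toAlgHom ℂ K K')) (fun j => algebraMap F K' (t j)) ∧
    ∀ P ∈ X, Divisorial w P → (∀ f ∈ L, f ≠ 0 → P.ord f = 0) →
      ∀ (Q : Place ℂ K') (ε : ℕ), LiesOver Q P ε →
        ((∀ g : F, Q.ord (algebraMap F K' g) = 0) → (ε : ℝ) * (1 - δ P) ≤ 1) ∧
        ∀ (v : Place ℂ F) (e' : ℕ), LiesOver Q v e' → (ε : ℝ) * (1 - δ P) ≤ e' * (1 - δF v)

/-- **Nonvanishing.** Let `K` be the function field of a variety `X` of dimension `d + e`, `V` a linear
system of dimension `n` on `X` whose rational map has an image `Y` of dimension `d`, `1 ≤ d ≤ n`;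
`φ i` nonzero members which span `V`, `γ` their decomposition into `c` components (there is no
decomposition into `c + 1` components), `R = n + 3 - c`, or `R = n + 1` if `c = 1` and there are
`n + 3` different members, `Δ ≥ 0` a real divisor on `X`, and `s ≥ R (n - d + 1) (n - d + 2) / 2` a
number for which the condition on the multiplicities holds. Let the fibres of `X ⇢ Y` correspond to a
variety with the function field `F` of dimension `e`, with coefficients `δF v ≤ 1` at the prime
divisors over it (`Corresponds`), whose Kodaira dimension is at least `lam`. Then the Kodaira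
dimension of `K_X + Δ` is at least `lam`, and at least `d + 1 - c + lam` if the inequality for `s` is
strict. -/
theorem result (d e n q c lam : ℕ) (hd : 1 ≤ d) (hdn : d ≤ n) (K : Type) [Field K]
    [Algebra ℂ K] (hK : Algebra.trdeg ℂ K = (d + e : ℕ))
    (V : Submodule ℂ K) (hV : Algebra.trdeg ℂ (ImageField V) = d)
    (φ : Fin q → K) (hφ0 : ∀ i, φ i ≠ 0) (hφ : Submodule.span ℂ (Set.range φ) = V)
    (γ : Fin q → Fin c) (hγ : Decomposition n V φ γ)
    (hc : ∀ γ' : Fin q → Fin (c + 1), ¬ Decomposition n V φ γ')
    (R : ℕ) (hR : R + c = n + 3 ∨ (c = 1 ∧ Different (n + 3) φ ∧ R = n + 1))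
    (X : Set (Place ℂ K)) (δ : Place ℂ K → ℝ) (hδ : ∀ P ∈ X, 0 ≤ δ P) (s : ℝ)
    (hs : (R : ℝ) * (((n : ℝ) - d + 1) * ((n : ℝ) - d + 2)) ≤ 2 * s)
    (h : Multiplicities (d + e) V φ γ X δ s)
    (F : Type) [Field F] [Algebra ℂ F] [Algebra.EssFiniteType ℂ F] (δF : Place ℂ F → ℝ)
    (hδF : ∀ v, Divisorial e v → δF v ≤ 1) (hF : KodairaGe e Set.univ δF lam)
    (hfib : Corresponds (d + e) e X δ (ImageField V) F δF) :
    KodairaGe (d + e) X δ lam ∧
    ((R : ℝ) * (((n : ℝ) - d + 1) * ((n : ℝ) - d + 2)) < 2 * s →
      ∀ κ : ℕ, κ + c = d + 1 → KodairaGe (d + e) X δ (κ + lam)) := by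
  obtain ⟨K', _, _, _, _, _, _, _, t, ht, htU, hH⟩ := hfib
  obtain ⟨m, hm, ω, hω, hne⟩ := hF
  obtain ⟨k, rfl⟩ := Nat.exists_eq_add_of_le hdn
  have e1 : ((d + k : ℕ) : ℝ) - d = (k : ℝ) := by
    push_cast
    ring
  rw [e1] at hs ⊢
  obtain ⟨h1, h2⟩ := Pool.Agent.V11322.LF.lin_fix (K := K) (lam := lam) (F := F) (K' := K') hd rfl
    hK hV hφ0 hφ hγ hc hR X δ hδ hs h hδF hm hω hne ht htU hH
  exact ⟨h1, fun hlt κ hκ => h2 κ hκ hlt⟩

end Pool.Agent.Results.MP_bc213e_ag.FixedVarietyFibres
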