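import Pool.Agent.V11322.LF.Fib

/-!
# Nonvanishing for pairs with a powerful linear system, whose fibres correspond to moving log
canonical arrangements

Let `(X, Δ)` be a projective pair, `X` normal of any dimension, `Δ` an effective `ℚ`-divisor (for
instance an l.c. pair), and let `|V|` be a linear system on `X` of dimension `n` (it may have fixed
components) whose rational map `X ⇢ ℙⁿ` has an image `Y` of dimension `d`, `1 ≤ d ≤ n`; the image may
be any nondegenerate variety. Suppose:

* (the base) `D i` (`i < q`) are finitely many members of `|V|` which span `V`, in arbitrary position,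
  `c` is the number of the components of this configuration (`V` is the direct sum of `c`, but not of
  `c + 1`, nonzero subspaces such that each `D i` belongs to one of them, the component of `D i`), and
  for every prime divisor `P` of `X` at which some `D i` has more than the generic multiplicity, the
  multiplicities of `P` in two members `D i`, `D i'` of one component of the configuration differ by
  at least `s (1 - Δ_P)`, where `s ≥ (n + 3 - c) (n - d + 1) (n - d + 2) / 2` (if `c = 1` and there are
  at least `n + 3` different members then `n + 1` can be taken instead of `n + 2`);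
* (the fibres) there is a correspondence between `X` and a relative product of projective spaces over
  `Y`: a variety `X'` with a generically finite map `X' ⇢ X` (any finite extension `K'` of the function
  field `K`, ramified anywhere) and a generically finite map over `Y` of `X'` to
  `Y' × P^{r_1} × ... × P^{r_t}`, `r_j ≥ 1`, `Y'` finite over `Y`, and in each `P^{r_j}` there are any
  hyperplanes `A j i = 0` which move with the point of `Y'`, with weights `w j i` in `[0, 1]` such that
  the arrangement is log canonical: the sum of the weights of hyperplanes with a common point is at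
  most the codimension of their intersection; such that over the generic point of `Y` the pull backs to
  `X'` of `K_X + Δ` and of `K + ∑ w j i (A j i = 0)` are comparable: if `Q` is a place of `K'` over a
  prime divisor `P` of `X` which dominates `Y`, with ramification index `ε`, and `e j i` are the
  multiplicities of the hyperplanes at `Q`, then `ε (1 - Δ_P)` is at most
  `∑ (mx_j - ∑ w j i e j i)`, where `mx_j` is the greatest sum of `r_j + 1` of the `e j i` whose
  hyperplanes have no common point (at most `1`, if all `e j i` are zero); and if `Q` is a place of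
  `K'` over a prime divisor of `P^{r_1} × ... × P^{r_t}` over `Y`, with ramification index `ρ`, and
  over the place `P` of `K`, with ramification index `ε`, then `ρ - ε α ≤ ∑ w j i e j i`, where `α` is
  the log discrepancy of `(X, Δ)` along `P`.

Then: if `∑ i, w j i < r_j + 1` for some `j` then `K_X + Δ` is not pseudo-effective
(`κ = ν = -∞`). Otherwise `κ(K_X + Δ) ≥ l ≥ 0`, where `l` is the sum of the `r_j` with
`∑ i, w j i > r_j + 1`. So `K_X + Δ` is pseudo-effective if and only if some positive multiple has a
nonzero section, in all dimensions; nefness is not needed. If the inequality for `s` is strict then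
`κ(K_X + Δ) ≥ d + 1 - c + l`.

`MP_bc213e_ag.LinearSystemNonvanishing` (generically finite maps `X ⇢ Y`) is the case without fibres;
in `MP_a58813_ag.DoubleCovers` `Δ = 0` and the fibres are products of double covers of `ℙ¹`. The
results with fibres of this type in the repository (`MP_5ff3c6_ag.LogCanonicalArrangements`,
`MP_370cf3_ag.CorrespondencePairs`, `MP_e23cd6_ag.ArrangementFibres`) have a base with many
hyperplane sections in general position, or of log general type with a number `μ` which depends on
the base. Here the base is given by members of a linear system in arbitrary position, the number `q`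
of members does not appear in the bound, and for `c > 1` the members need not be moved together: the
complement of the members may even be a product of algebraic tori.

The language and the definitions of `Pool.Agent.Y172` are used: `X` is given by the homogeneous
coordinates `x` of its generic point, with values in the function field `K` of `X`; the prime divisors
of `X` are places `P` of `K`, `P.ord` is the order along `P`. If `a` is the minimum of the orders at
`P` of the members of `V` then the multiplicity of `P` in the moving part of the divisor of the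
system which is given by `f ∈ V` is `P.ord f - a`. Along a place of `K'` the multiplicities `e j i`
are the orders of the forms `∑ k, A j i k * u j k` of the hyperplanes at the point with the affine
coordinates `u ⟨j, k⟩`, relative to the order of the point (`MOrd`).

Proof: the sections of `m (K_X + Δ)` are products of powers of generalised Wronskians of `V`, divided
by products of members (`lin_fib` of helper585), and of norms to `K` of products of determinants of
logarithmic derivatives of the linear forms along the fibres of `X'` (`lc_low` of helper191).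
-/

set_option autoImplicit false

open FF Pool.Agent.W602.GT Pool.Agent.Y172 Pool.Agent.Y191

namespace Pool.Agent.Results.MP_bc213e_ag.LinearSystemFibres

section

variable {K : Type} [Field K] [Algebra ℂ K] {N : ℕ}

/-- `X` is a normal projective variety of dimension `n`, where `x` is the generic point of `X`, and
`Δ` is an effective `ℚ`-divisor on `X`. -/
def IsPair (x : Fin (N + 1) → K) (n : ℕ) (Δ : Place ℂ K → ℚ) : Prop :=
  NormalModel x ∧ Algebra.trdeg ℂ K = n ∧ Effective x Δ

/-- The function field of the image of the rational map which is given by the linear system `V`: the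
field generated by the quotients of the members. -/
noncomputable def ImageField (V : Submodule ℂ K) : IntermediateField ℂ K :=
  IntermediateField.adjoin ℂ {y : K | ∃ f ∈ V, ∃ g ∈ V, y = f / g}

/-- `γ` is a decomposition of the configuration of the members `φ i` of `V` into `c` components: `V`
has a basis of `n + 1` elements `b a`, divided into `c` nonempty groups (`b a` is in the group `g a`),
such that `φ i` is in the subspace spanned by the elements of the group `γ i`. -/
def Decomposition (n : ℕ) {q c : ℕ} (V : Submodule ℂ K) (φ : Fin q → K) (γ : Fin q → Fin c) :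
    Prop :=
  ∃ (b : Fin (n + 1) → K) (g : Fin (n + 1) → Fin c), LinearIndependent ℂ b ∧
    Submodule.span ℂ (Set.range b) = V ∧ Function.Surjective g ∧
    ∀ i, φ i ∈ Submodule.span ℂ (b '' {a | g a = γ i})

/-- There are `r` members `φ i` of which no two are proportional. -/
def Different (r : ℕ) {q : ℕ} (φ : Fin q → K) : Prop :=
  ∃ τ : Fin r → Fin q, ∀ i j, i ≠ j → ∀ t : ℂ, φ (τ i) ≠ t • φ (τ j)

/-- The condition on the multiplicities: if at the prime divisor `P` of `X` the order of some `φ i` is
not the minimum `a` of the orders of the members of `V`, then for some members `D i`, `D i'` of the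
same component of the configuration the difference of the multiplicities of `P` is at least
`s (1 - Δ P)`. -/
def Multiplicities {q c : ℕ} (V : Submodule ℂ K) (φ : Fin q → K) (γ : Fin q → Fin c)
    (x : Fin (N + 1) → K) (Δ : Place ℂ K → ℚ) (s : ℝ) : Prop :=
  ∀ P, IsPrimeDivisor x P → ∀ a : ℤ, (∀ f ∈ V, f = 0 ∨ a ≤ P.ord f) →
    (∃ f ∈ V, f ≠ 0 ∧ P.ord f = a) → (∃ i, P.ord (φ i) ≠ a) →
    ∃ i i', γ i' = γ i ∧ s * (1 - Δ P) ≤ ((P.ord (φ i) - P.ord (φ i') : ℤ) : ℝ)

/-- There is a finite extension `K'` of `K`, and the `u ⟨j, k⟩` are the affine coordinates of a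
generically finite map, over the variety with the function field `L`, of a variety with the function
field `K'` to a product of projective spaces of dimensions `r j ≥ 1`; `A j i` are the coefficients of
hyperplanes, algebraic over `L`, with weights `w j i` in `[0, 1]` such that the arrangement is log
canonical (`LcArr`). The multiplicities are bounded at the places over the prime divisors of `X`
which are trivial on `L` (`LcHor`) and at the places over the prime divisors of the product
(`Cor`). -/
def Fibres (x : Fin (N + 1) → K) (n : ℕ) (Δ : Place ℂ K → ℚ) (L : IntermediateField ℂ K) {t : ℕ}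
    (r m : Fin t → ℕ) (w : ∀ j, Fin (m j) → ℚ) : Prop :=
  (∀ j, 1 ≤ r j ∧ ∀ i, 0 ≤ w j i ∧ w j i ≤ 1) ∧
  ∃ (K' : Type) (_ : Field K') (_ : Algebra ℂ K') (_ : Algebra K K') (_ : IsScalarTower ℂ K K')
    (_ : FiniteDimensional K K') (A : ∀ j, Fin (m j) → Fin (r j + 1) → K')
    (u : (Σ j, Fin (r j)) → K'),
    LcArr (upF K' L) A w ∧ IsTranscendenceBasis (upF K' L) u ∧
    LcHor L A u w {P | IsPrimeDivisor x P} (fun P => (Δ P : ℝ)) ∧ Cor x n Δ (upF K' L) A u w

/-- the sum of the dimensions `r j` for which the sum of the weights is greater than `r j + 1` -/
def big {t : ℕ} (r m : Fin t → ℕ) (w : ∀ j, Fin (m j) → ℚ) : ℕ :=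
  ∑ j, if (r j + 1 : ℚ) < ∑ i, w j i then r j else 0

end

theorem exists_idx {t : ℕ} (r q : Fin t → ℕ) (w : ∀ j, Fin (q j) → ℚ) :
    ∃ κ : Fin (big r q w) → Σ j, Fin (r j), Function.Injective κ ∧
      ∀ i, (r (κ i).1 + 1 : ℚ) < ∑ i', w (κ i).1 i' := by
  classical
  have h1 : Fintype.card {x : Σ j, Fin (r j) // (r x.1 + 1 : ℚ) < ∑ i, w x.1 i} = big r q w := by
    rw [Fintype.card_subtype, Finset.card_filter, Fintype.sum_sigma]
    refine Finset.sum_congr rfl fun j _ => ?_
    change ∑ _k : Fin (r j), (if (r j + 1 : ℚ) < ∑ i, w j i then 1 else 0) = _
    rw [Finset.sum_const, Finset.card_univ, Fintype.card_fin, smul_eq_mul, mul_ite, mul_one,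
      mul_zero]
  let φ := Fintype.equivFinOfCardEq h1
  exact ⟨fun i => (φ.symm i : Σ j, Fin (r j)), fun a b hab => φ.symm.injective (Subtype.ext hab),
    fun i => (φ.symm i).2⟩

/-- **Nonvanishing.** Let `(X, Δ)` be a projective pair of dimension `d + ∑ j, r j`, `V` a linear
system of dimension `n` on `X` whose rational map has an image `Y` of dimension `d`, `1 ≤ d ≤ n`;
`φ i` nonzero members which span `V`, `γ` their decomposition into `c` components (there is no
decomposition into `c + 1` components), `R = n + 3 - c`, or `R = n + 1` if `c = 1` and there are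
`n + 3` different members, and `s ≥ R (n - d + 1) (n - d + 2) / 2` a number for which the condition on
the multiplicities holds; let the fibres of `X ⇢ Y` correspond to a product of moving log canonical
arrangements of hyperplanes in projective spaces of dimensions `r j` with weights `w j i`. If the sum
of the weights is less than `r j + 1` for some `j` then the Kodaira dimension and the numerical
dimension of `K_X + Δ` are `-∞`. Otherwise the Kodaira dimension is at least the sum `big` of the
`r j` for which the sum of the weights is greater than `r j + 1`; and at least `d + 1 - c + big` if the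
inequality for `s` is strict. -/
theorem result (d n q c : ℕ) (hd : 1 ≤ d) (hdn : d ≤ n) (K : Type) [Field K] [Algebra ℂ K]
    (N t : ℕ) (r m : Fin t → ℕ) (x : Fin (N + 1) → K) (Δ : Place ℂ K → ℚ)
    (hX : IsPair x (d + ∑ j, r j) Δ)
    (V : Submodule ℂ K) (hV : Algebra.trdeg ℂ (ImageField V) = d)
    (φ : Fin q → K) (hφ0 : ∀ i, φ i ≠ 0) (hφ : Submodule.span ℂ (Set.range φ) = V)
    (γ : Fin q → Fin c) (hγ : Decomposition n V φ γ)
    (hc : ∀ γ' : Fin q → Fin (c + 1), ¬ Decomposition n V φ γ')
    (R : ℕ) (hR : R + c = n + 3 ∨ (c = 1 ∧ Different (n + 3) φ ∧ R = n + 1))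
    (s : ℝ) (hs : (R : ℝ) * (((n : ℝ) - d + 1) * ((n : ℝ) - d + 2)) ≤ 2 * s)
    (h : Multiplicities V φ γ x Δ s)
    (w : ∀ j, Fin (m j) → ℚ) (hF : Fibres x (d + ∑ j, r j) Δ (ImageField V) r m w) :
    ((∃ j, ∑ i, w j i < (r j + 1 : ℚ)) → kodairaDim x (d + ∑ j, r j) Δ = ⊥ ∧
      ∀ A, Effective x A → numericalDim x (d + ∑ j, r j) Δ A = ⊥) ∧
    ((∀ j, (r j + 1 : ℚ) ≤ ∑ i, w j i) →
      ((big r m w : ℕ) : WithBot ℕ) ≤ kodairaDim x (d + ∑ j, r j) Δ ∧
      ((R : ℝ) * (((n : ℝ) - d + 1) * ((n : ℝ) - d + 2)) < 2 * s → ∀ κ : ℕ, κ + c = d + 1 →
        ((κ + big r m w : ℕ) : WithBot ℕ) ≤ kodairaDim x (d + ∑ j, r j) Δ)) := by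
  obtain ⟨hx, hn, hΔ⟩ := hX
  obtain ⟨hw, K', _, _, _, _, _, A, u, hA, hu, h1, hC⟩ := hF
  obtain ⟨k, rfl⟩ := Nat.exists_eq_add_of_le hdn
  have e1 : ((d + k : ℕ) : ℝ) - d = (k : ℝ) := by
    push_cast
    ring
  rw [e1] at hs ⊢
  obtain ⟨h2, h3⟩ := Pool.Agent.V11322.LF.lin_lc hx hn hΔ hd rfl hV hφ0 hφ hγ hc hR hs h hw hA hu
    h1 hC
  refine ⟨h2, fun h4 => ?_⟩
  obtain ⟨h5, h6⟩ := h3 (big r m w) h4 (exists_idx r m w)
  exact ⟨h5, fun hlt κ hκ => (h6 hlt).1 κ hκ⟩

end Pool.Agent.Results.MP_bc213e_ag.LinearSystemFibres
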