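import Pool.Agent.V11168.Pair.Point

/-!
# Nonvanishing for log canonical pairs on quotients of fibre spaces with logarithmic 1-forms

Let `Z → B` be an algebraic fibre space of projective varieties, `dim B = d`, `dim Z = d + (r + 1)`,
with the function fields `M ⊂ L` (`B` may be a point), `Δ_B` a divisor on `B` with multiplicities at
most `1`, `G` a finite group of birational automorphisms of `Z` (it need not preserve the map to `B`),
and `(X, Δ)` a log canonical pair with `X` birational to `Z / G`; the function field of `X` is the field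
of invariants `fixedField G`. `Δ` is given by its multiplicities `δ v = max (0, -a (v, X, Δ)) ≤ 1`
along all prime divisors `v` over `X`, where `a (v, X, Δ)` is the discrepancy. The sections of
`m (K_X + Δ)` are the `m`-fold pluricanonical forms on the function field with pole order at most
`m δ v` at all `v` (`PairSec`).

Let `V` be a space of rational 1-forms on `Z`, preserved by `G`, which are regular except for
logarithmic poles along the prime divisors `w` over `Z` which lie over prime divisors `v` over `X` with
`δ v = 1` (`IsLogForm`), and such that `r + 1` of them are linearly independent on the general fibre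
(`IndepOver`). For example `Z → B × A` is generically finite onto its image, where `A` is a semiabelian
variety, `V` is the space of the pull-backs of the invariant forms of `A`, `G` a finite group of
automorphisms of `A` (or of `B × A`) which acts on `Z`, and `δ v = 1` at the divisors over the boundary
of `A`.

* `BaseBound`: if `w` is not ramified over `v`, `δ v < 1`, and `w` lies over the prime divisor `u` over
  `B` with multiplicity `c`, then `1 - δ v ≤ c (1 - δB u)`.
* `ReidTaiPair` (weighted condition of Reid-Tai type): if `w` has ramification index `e ≥ 2` over `v`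
  with `δ v < 1`, `g` in `G`, of order `e`, fixes `w` pointwise, and `θ 1, ..., θ (r + 1)` in `V`,
  independent on the general fibre, are eigenvectors of `g` with the eigenvalues `ζ ^ a i`,
  `0 ≤ a i < e`, `ζ` a primitive `e`-th root of unity, then
  `c (1 - δB u) + a 1 + ... + a (r + 1) ≥ e (1 - δ v)`, where `c = 0` if `w` dominates `B`, and `w`
  lies over `u` with multiplicity `c` otherwise.

There is no condition along the divisors `v` with `δ v = 1` except `δB ≤ 1`.
-/

set_option autoImplicit false

open FF IntermediateField Pool.Agent.W619.PQ Pool.Agent.W619.TW Pool.Agent.W619.Y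
  Pool.Agent.Y173.QA Pool.Agent.Y173.QM Pool.Agent.Y174 Pool.Agent.V11168.Rel
  Pool.Agent.V11168.Pair

namespace Pool.Agent.Results.MP_bc213e_ag.LogQuotientPairs

/-- **Theorem.** Let `Z → B`, `M ⊂ L`, `Δ_B`, `G`, `(X, Δ)` and `V` be as above. Then
`κ (K_X + Δ) ≥ κ (K_B + Δ_B)`; in particular nonvanishing holds for `K_X + Δ` if it holds for
`K_B + Δ_B`, and if `B` is a point, then `κ (K_X + Δ) ≥ 0`. If the forms in `V` are closed (`V` may have any
dimension), and `s` is the dimension of the space of the vector fields on the generic fibre on which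
all forms in `V` are constant, then `s ≤ r + 1` and `κ (K_X + Δ) ≥ κ (K_B + Δ_B) + (r + 1) - s`.
(`PairKod` means `κ ≥ h`: there are `h + 1` sections of a multiple whose ratios are algebraically
independent.) -/
theorem result {L : Type} [Field L] [Algebra ℂ L] [Algebra.EssFiniteType ℂ L]
    -- the base
    (M : IntermediateField ℂ L) [Algebra.EssFiniteType ℂ M]
    (hMcl : ∀ x : L, IsAlgebraic M x → x ∈ M) {d r : ℕ}
    (hM : Algebra.trdeg ℂ M = d) (hn : Algebra.trdeg ℂ L = (d + (r + 1) : ℕ))
    {δB : Place ℂ M → ℝ} (hB : ∀ u, δB u ≤ 1)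
    -- the group and the pair
    (G : Subgroup (L ≃ₐ[ℂ] L)) [Finite G]
    {δ : Place ℂ (fixedField G) → ℝ} (hδ0 : ∀ v, 0 ≤ δ v) (hδ1 : ∀ v, δ v ≤ 1)
    -- the forms
    (V : Submodule ℂ (Derivation ℂ L L →ₗ[L] L))
    (hlog : ∀ θ ∈ V, IsLogForm (d + (r + 1)) (BdOn fun v => δ v = 1) θ)
    (hstab : ∀ g ∈ G, ∀ θ ∈ V, ∃ θ' ∈ V, IsImage g θ θ')
    (hind : ∃ θ : Fin (r + 1) → Derivation ℂ L L →ₗ[L] L, (∀ i, θ i ∈ V) ∧
      IndepOver (m := d) M θ)
    -- the conditions on the divisors
    (hBX : BaseBound (d + (r + 1)) G M (fun v => δ v = 1) δ δB)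
    (hRT : ReidTaiPair d (r + 1) G M V (fun v => δ v = 1) δ δB) :
    (∀ h, PairKod ℂ M d δB h → PairKod ℂ (fixedField G) (d + (r + 1)) δ h) ∧
      (d = 0 → PairKod ℂ (fixedField G) (d + (r + 1)) δ 0) ∧
      ((∀ θ ∈ V, IsClosedForm θ) →
        ∃ a : ℕ, a + Module.finrank M (constFields (fibreForms M V)) = r + 1 ∧
          ∀ h, PairKod ℂ M d δB h → PairKod ℂ (fixedField G) (d + (r + 1)) δ (h + a)) := by
  have _ := hδ1
  obtain ⟨θ, hθ, hθi⟩ := hind
  have hlow0 : ∀ h, PairKod ℂ M d δB h → PairKod ℂ (fixedField G) (d + (r + 1)) δ h := fun h hh =>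
    lower_zero hM hn G hδ0 (fun v hv => hv.ge) hlog hstab hB hBX hRT hθ hθi hh
  refine ⟨hlow0, fun hd => hlow0 0 ?_, fun hcl => ?_⟩
  · subst hd
    exact pairKod_point hM δB
  obtain ⟨a, s, t, U, has, hrank, -, -, -, -, hlow⟩ :=
    lower_main hMcl hM hn G hδ0 (fun v hv => hv.ge) hlog hcl hstab hB hBX hRT hθ hθi
  exact ⟨a, by rw [hrank]; exact has, hlow⟩

end Pool.Agent.Results.MP_bc213e_ag.LogQuotientPairs
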