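import Pool.Agent.V1157.KL.Weak2

/-!
# Nonvanishing for log canonical pairs with very affine fibres over a variety of log general type

Let `V` be any variety of dimension `p` with the function field `K`, `y 0, …, y n` nonzero rational
functions whose ratios define a generically finite map of `V` to projective space, and `B` any set of
prime divisors over `V`, such that the complement of `B` and of the zeros and poles of the ratios
`y i / y j` is of log general type (`LogGeneralType`). There is no condition on the divisors: they may
have any singularities. There is a number `μ` which depends only on these data, such that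
nonvanishing and weak abundance hold for ALL projective log canonical pairs `(X, Δ)`, with a dominant
rational map `X ⇢ V`, with the following properties:

* (the base) for every prime divisor `P` of `X` which does not dominate `V`, with the coefficient
  `Δ_P`: either the orders of two of the functions `y i` along `P` differ by at least `μ (1 - Δ_P)`,
  or all `y i` have the same order along `P`, and the ramification index of `P` over `V` is at least
  `2 (1 - Δ_P)` if `P` lies over a prime divisor in `B`;
* (the fibres) the function field `L` of `X` is generated by functions `t j` and the algebraic closure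
  of `K` in `L`, and the zeros and poles of the `t j` which dominate `V` have coefficient (at least)
  `1` in `Δ`: the open part of the generic fibre is birational to a closed subvariety of a torus.

Then the Kodaira dimension of `K_X + Δ` is a natural number, at least `p`, so that `K_X + Δ` is
`ℚ`-effective (nefness is not needed), and it is equal to the numerical dimension of `K_X + Δ`.

Over `B` multiplicity `2` is sufficient; over the zeros and poles of the `y i / y j` the bound `μ` is
the same for all pairs and all dimensions of `X`.

The language and the definitions of `Pool.Agent.Y172` are used: `X` is given by the homogeneous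
coordinates `x` of its generic point, with values in the function field `L` of `X`; the prime divisors
of `X` are places `P` of `L`, `P.ord` is the order along `P`.

Proof. Products of logarithmic pluricanonical forms of the complement of `B` in `V`, of powers of the
logarithmic form `∧ d (y i / y 0) / (y i / y 0)`, and of a rational function which vanishes along the
zeros and poles of all `y i / y 0` relative to the poles of the forms, are pulled back to `X`
(`Base`). They are multiplied with pluricanonical forms along the fibres, which are regular also along
the vertical divisors (`Comb`). The numerical dimension is bounded above by `upper` in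
`Pool.Agent.Y172` (`Weak2`).
-/

set_option autoImplicit false

open FF Pool.Agent.W602.GT Pool.Agent.Y172 Pool.Agent.V1157.KL

namespace Pool.Agent.Results.MP_bc213e_ag.VeryAffineFibres

section

variable {L : Type} [Field L] [Algebra ℂ L] {N : ℕ}

/-- `(X, Δ)` is a projective log canonical pair of dimension `d`, where `x` is the generic point of
`X`. -/
def LcPair (x : Fin (N + 1) → L) (d : ℕ) (Δ : Place ℂ L → ℚ) : Prop :=
  NormalModel x ∧ Algebra.trdeg ℂ L = d ∧ Effective x Δ ∧ LogCanonical x d Δ

/-- The place `P` is trivial on `K`: the divisor dominates `V`. -/
def Dominates (K : Type) [Field K] [Algebra ℂ K] [Algebra K L] (P : Place ℂ L) : Prop :=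
  ∀ g : K, P.ord (algebraMap K L g) = 0

/-- The field `L` is generated by functions `t j` and the elements which are algebraic over `K`, and
the prime divisors of `X` which are zeros or poles of some `t j` and dominate `V` have coefficient at
least `1` in `Δ`. -/
def VeryAffine (K : Type) [Field K] [Algebra ℂ K] [Algebra K L] [IsScalarTower ℂ K L]
    (x : Fin (N + 1) → L) (Δ : Place ℂ L → ℚ) : Prop :=
  ∃ (r : ℕ) (t : Fin r → L), (∀ j, t j ≠ 0) ∧
    IntermediateField.adjoin ℂ ({z : L | IsAlgebraic (img K L) z} ∪ Set.range t) = ⊤ ∧
    ∀ P, IsPrimeDivisor x P → Dominates K P → (∃ j, P.ord (t j) ≠ 0) → 1 ≤ Δ P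

end

/-- Let `K` be the function field of a variety `V` of dimension `p`, let `y i` be nonzero elements of
`K` such that `K` is algebraic over the field generated by their ratios, and let `B` be a set of
places, such that the complement in `V` of the prime divisors in `B` and of the zeros and poles of the
ratios is of log general type. Then there is a number `μ` such that for all projective log canonical
pairs `(X, Δ)` of dimension `d`, with a dominant rational map `X ⇢ V`, such that the prime divisors
of `X` dominate `V` or satisfy the condition `Mult y B μ` on the multiplicities, and the fibres are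
very affine, the Kodaira dimension of `K_X + Δ` is a natural number `κ ≥ p` (so `K_X + Δ` is
`ℚ`-effective), and equal to the numerical dimension of `K_X + Δ`, with respect to any effective
integral divisor `A`. -/
theorem result (K : Type) [Field K] [Algebra ℂ K] [Algebra.EssFiniteType ℂ K] (n p : ℕ)
    (y : Fin (n + 1) → K) (B : Place ℂ K → Prop) (hy : ∀ i, y i ≠ 0)
    (halg : ∀ z : K, IsAlgebraic (IntermediateField.adjoin ℂ (Set.range fun i => y i / y 0)) z)
    (hgt : LogGeneralType ℂ K p (fun P => (∃ i, P.ord (y i) ≠ P.ord (y 0)) ∨ B P)) :
    ∃ μ : ℕ, ∀ (L : Type) [Field L] [Algebra ℂ L] [Algebra K L] [IsScalarTower ℂ K L]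
      (N d : ℕ) (x : Fin (N + 1) → L) (Δ : Place ℂ L → ℚ), LcPair x d Δ →
      (∀ P, IsPrimeDivisor x P → Dominates K P ∨ Mult y B μ P (Δ P)) →
      VeryAffine K x Δ →
      ∃ κ : ℕ, p ≤ κ ∧ kodairaDim x d Δ = (κ : WithBot ℕ) ∧
        ∀ A, Effective x A → Integral x A → numericalDim x d Δ A = (κ : EReal) := by
  obtain ⟨μ, hμ⟩ := weak_lgt K n p y B hy halg hgt
  refine ⟨μ, ?_⟩
  rintro L _ _ _ _ N d x Δ ⟨hx, hd, hΔ, hLC⟩ hcond ⟨r, t, ht, hgen, h2⟩
  obtain ⟨κ, h3, h4, h5, -⟩ := hμ L N d x Δ hx hd hΔ hLC hcond r t ht hgen h2
  exact ⟨κ, h3, h4, h5⟩

end Pool.Agent.Results.MP_bc213e_ag.VeryAffineFibres
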